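import Pool.Agent.helper66.SL.SpecC

set_option autoImplicit false

namespace Pool.Agent.helper66.SL

open Pool.Agent.helper52.FC

theorem CYA_le {E : Type} {q S : E → SignType} {a : E} (h : Le q S) (ha : q a = 0) :
    Le q (fl S a) := by
  intro g
  by_cases hg : g = a
  · subst hg
    exact Or.inl ha
  · rw [fl_ne S hg]
    exact h g

open Classical in
/-- the potential -/
noncomputable def CYA_P {E : Type} [Fintype E] (L : Set (E → SignType)) (p : E → SignType)
    (f : E → ℝ) (S : E → SignType) : ℝ :=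
  ∑ g, if p g = 0 ∧ Wall L S g then
    (if Tr L p S g then -(2 / 3 : ℝ) else -(1 / 3)) * ((S g : ℝ) * f g) else 0

theorem CYA_P_eq {E : Type} [Fintype E] (L : Set (E → SignType)) (p : E → SignType)
    (f : E → ℝ) (S : E → SignType) (a b : E) (hab : a ≠ b) (ha : p a = 0) (hb : p b = 0)
    (wa : Wall L S a) (wb : Wall L S b) (ta : Tr L p S a) (tb : ¬ Tr L p S b)
    (hall : ∀ g, p g = 0 → Wall L S g → g = a ∨ g = b) :
    CYA_P L p f S = -(2 / 3) * ((S a : ℝ) * f a) - (1 / 3) * ((S b : ℝ) * f b) := by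
  classical
  unfold CYA_P
  rw [← Finset.sum_subset (Finset.subset_univ ({a, b} : Finset E))]
  · rw [Finset.sum_pair hab, if_pos (⟨ha, wa⟩ : p a = 0 ∧ Wall L S a), if_pos ta,
      if_pos (⟨hb, wb⟩ : p b = 0 ∧ Wall L S b), if_neg tb]
    ring
  · intro g _ hg
    rw [if_neg]
    rintro ⟨h1, h2⟩
    rcases hall g h1 h2 with h | h
    · exact hg (by rw [h]; simp)
    · exact hg (by rw [h]; simp)

theorem CYA_proof (hPAT : PAT) (hSZZ : SZZ) : CYA := by
  classical
  intro E _ L hR p hp f hf T hT hpT hE c0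
  have hFE : Fintype E := Fintype.ofFinite E
  obtain ⟨hCork, hcard⟩ := hp
  have hgood := hR.good
  -- the two walls of a tope of the star
  have htwo : ∀ S, IsTope L S → Le p S → ∀ e, Wall L S e → p e = 0 →
      ∃ g, g ≠ e ∧ Wall L S g ∧ p g = 0 ∧ ∀ h, p h = 0 → Wall L S h → h = e ∨ h = g := by
    intro S hS hpS e he hpe
    have h2 := hCork.2 S hS hpS
    obtain ⟨x, y, hxy, hxyS⟩ := Set.ncard_eq_two.1 h2
    have hmem : ∀ h, (Wall L S h ∧ p h = 0) ↔ (h = x ∨ h = y) := by
      intro h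
      have : h ∈ {e | Wall L S e ∧ p e = 0} ↔ h ∈ ({x, y} : Set E) := by rw [hxyS]
      simpa using this
    rcases (hmem e).1 ⟨he, hpe⟩ with h | h
    · refine ⟨y, ?_, ((hmem y).2 (Or.inr rfl)).1, ((hmem y).2 (Or.inr rfl)).2, ?_⟩
      · rw [h]; exact hxy.symm
      · intro k hk1 hk2
        rw [h]
        exact (hmem k).1 ⟨hk2, hk1⟩
    · refine ⟨x, ?_, ((hmem x).2 (Or.inl rfl)).1, ((hmem x).2 (Or.inl rfl)).2, ?_⟩
      · rw [h]; exact hxy
      · intro k hk1 hk2
        rw [h]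
        exact ((hmem k).1 ⟨hk2, hk1⟩).symm
  -- the third element
  have hthird : ∀ a b, a ≠ b → p a = 0 → p b = 0 →
      ∃ c, c ≠ a ∧ c ≠ b ∧ p c = 0 ∧ ∀ g, p g = 0 → g = a ∨ g = b ∨ g = c := by
    intro a b hab ha hb
    have hfin : ({g | p g = 0} : Set E).Finite := Set.toFinite _
    have h3 : ({g | p g = 0} \ {a, b} : Set E).ncard = 1 := by
      have h4 : ({a, b} : Set E) ⊆ {g | p g = 0} := by
        intro x hx
        rcases hx with hx | hx
        · rw [hx]; exact ha
        · rw [Set.mem_singleton_iff.1 hx]; exact hb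
      rw [Set.ncard_sdiff h4, hcard, Set.ncard_pair hab]
    obtain ⟨c, hc⟩ := Set.ncard_eq_one.1 h3
    have hmem : ∀ g, (p g = 0 ∧ g ≠ a ∧ g ≠ b) ↔ g = c := by
      intro g
      have : g ∈ ({g | p g = 0} \ {a, b} : Set E) ↔ g ∈ ({c} : Set E) := by rw [hc]
      simp only [Set.mem_sdiff, Set.mem_insert_iff, Set.mem_singleton_iff, not_or] at this
      exact this
    obtain ⟨h1, h2, h3⟩ := (hmem c).2 rfl
    refine ⟨c, h2, h3, h1, fun g hg => ?_⟩
    by_cases h4 : g = a
    · exact Or.inl h4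
    · by_cases h5 : g = b
      · exact Or.inr (Or.inl h5)
      · exact Or.inr (Or.inr ((hmem g).1 ⟨hg, h4, h5⟩))
  have htrfl : ∀ S e, p e = 0 → (Tr L p S e ↔ Tr L p (fl S e) e) := by
    intro S e _
    constructor
    · rintro ⟨q, h1, h2, h3, h4⟩
      exact ⟨q, h1, CYA_le h2 h3, h3, h4⟩
    · rintro ⟨q, h1, h2, h3, h4⟩
      refine ⟨q, h1, ?_, h3, h4⟩
      have := CYA_le h2 h3
      rwa [fl_fl] at this
  refine ⟨fun S => c0 + CYA_P L p f S - CYA_P L p f T, by ring, ?_⟩
  intro S hS hpS e he hpe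
  obtain ⟨g, hge, hgw, hpg, hall⟩ := htwo S hS hpS e he hpe
  obtain ⟨c, hce, hcg, hpc, hz⟩ := hthird e g hge.symm hpe hpg
  obtain ⟨n1, n2, n3⟩ := hPAT E L hgood p hCork e g c hge.symm hce hcg hpe hpg hpc hz S hS hpS he hgw
  have hS' : IsTope L (fl S e) := he
  have hpS' : Le p (fl S e) := CYA_le hpS hpe
  have hwe : Wall L (fl S e) e := by
    show IsTope L (fl (fl S e) e)
    rw [fl_fl]
    exact hS
  have hall' : ∀ h, p h = 0 → Wall L (fl S e) h → h = e ∨ h = c := by
    intro h hh hw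
    rcases hz h hh with h1 | h1 | h1
    · exact Or.inl h1
    · rw [h1] at hw
      exact absurd hw n3
    · exact Or.inr h1
  have hrel : (S c : ℝ) * f c = S e * f e + S g * f g :=
    hf S hS hpS e g c hge.symm hce hcg he hgw hpe hpg hpc
  have hval_e : ((fl S e e : SignType) : ℝ) = -(S e : ℝ) := by
    rw [fl_same, SignType.coe_neg]
  have hval_c : ((fl S e c : SignType) : ℝ) = (S c : ℝ) := by
    rw [fl_ne S hce]
  constructor
  · intro htr
    have ntr : ¬ Tr L p S g := (hE S hS hpS e g hge.symm he hgw hpe hpg).1 htr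
    have htr' : Tr L p (fl S e) e := (htrfl S e hpe).1 htr
    have ntr' : ¬ Tr L p (fl S e) c := (hE (fl S e) hS' hpS' e c hce.symm hwe n2 hpe hpc).1 htr'
    have e1 := CYA_P_eq L p f S e g hge.symm hpe hpg he hgw htr ntr hall
    have e2 := CYA_P_eq L p f (fl S e) e c hce.symm hpe hpc hwe n2 htr' ntr' hall'
    rw [hval_e, hval_c] at e2
    show c0 + CYA_P L p f (fl S e) - CYA_P L p f T = c0 + CYA_P L p f S - CYA_P L p f T + _
    rw [e1, e2, hrel]
    ring
  · intro ntr
    have htr : Tr L p S g := by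
      by_contra hcon
      exact ntr ((hE S hS hpS e g hge.symm he hgw hpe hpg).2 hcon)
    have ntr' : ¬ Tr L p (fl S e) e := fun h => ntr ((htrfl S e hpe).2 h)
    have htr' : Tr L p (fl S e) c := by
      by_contra hcon
      exact ntr' ((hE (fl S e) hS' hpS' e c hce.symm hwe n2 hpe hpc).2 hcon)
    have e1 := CYA_P_eq L p f S g e hge hpg hpe hgw he htr ntr
      (fun h h1 h2 => (hall h h1 h2).symm)
    have e2 := CYA_P_eq L p f (fl S e) c e hce hpc hpe n2 hwe htr' ntr'
      (fun h h1 h2 => (hall' h h1 h2).symm)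
    rw [hval_e, hval_c] at e2
    show c0 + CYA_P L p f (fl S e) - CYA_P L p f T = c0 + CYA_P L p f S - CYA_P L p f T
    rw [e1, e2, hrel]
    ring

end Pool.Agent.helper66.SL
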