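import Pool.Agent.helper66.SL.SpecC

set_option autoImplicit false

namespace Pool.Agent.helper66.SL

open Pool.Agent.helper52.FC

theorem CYS_sign (s t : SignType) (hs : s ≠ 0) (ht : t ≠ 0) (h : s ≠ t) : s = -t := by
  revert s t
  decide

open Classical in
/-- the terms of the sum -/
noncomputable def CYS_t {E : Type} (L : Set (E → SignType)) (p : E → SignType)
    (f : E → ℝ) (T S : E → SignType) (g : E) : ℝ :=
  if p g = 0 ∧ S g ≠ T g then
    (if ∃ R, IsTope L R ∧ Le p R ∧ Wall L R g ∧ Tr L p R g then (T g : ℝ) * f g else 0) else 0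

theorem CYS_proof : CYS := by
  classical
  intro E _ L hR p hp f T hT hpT hE c0
  have hFE : Fintype E := Fintype.ofFinite E
  have hsupp : ∀ S, IsTope L S → ∀ g, S g ≠ 0 := fun S hS g =>
    tope_supp hR.good.om hR.good.simple hS g
  refine ⟨fun S => c0 + ∑ g, CYS_t L p f T S g, ?_, ?_⟩
  · have : ∀ g, CYS_t L p f T T g = 0 := by
      intro g
      unfold CYS_t
      rw [if_neg (fun h => h.2 rfl)]
    simp only [this, Finset.sum_const_zero, add_zero]
  · intro S hS hpS e he hpe
    have hother : ∀ g, g ≠ e → CYS_t L p f T (fl S e) g = CYS_t L p f T S g := by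
      intro g hg
      unfold CYS_t
      rw [fl_ne S hg]
    have hsum : ∑ g, CYS_t L p f T (fl S e) g - ∑ g, CYS_t L p f T S g =
        CYS_t L p f T (fl S e) e - CYS_t L p f T S e := by
      rw [← Finset.add_sum_erase Finset.univ (fun g => CYS_t L p f T (fl S e) g)
        (Finset.mem_univ e), ← Finset.add_sum_erase Finset.univ (fun g => CYS_t L p f T S g)
        (Finset.mem_univ e)]
      have : ∑ g ∈ Finset.univ.erase e, CYS_t L p f T (fl S e) g =
          ∑ g ∈ Finset.univ.erase e, CYS_t L p f T S g :=
        Finset.sum_congr rfl (fun g hg => hother g (Finset.ne_of_mem_erase hg))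
      rw [this]
      ring
    have hTe := hsupp T hT e
    have hSe := hsupp S hS e
    have hflip : -S e ≠ S e := by
      have : ∀ s : SignType, s ≠ 0 → -s ≠ s := by decide
      exact this _ hSe
    have key : ∀ d : ℝ, (∀ U : E → SignType, CYS_t L p f T U e = if U e ≠ T e then d else 0) →
        CYS_t L p f T (fl S e) e - CYS_t L p f T S e =
          (if S e = T e then d else -d) := by
      intro d hd
      rw [hd, hd, fl_same]
      by_cases h : S e = T e
      · have h4 : -S e ≠ T e := by
          rw [← h]
          exact hflip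
        have h5 : ¬ (S e ≠ T e) := fun h' => h' h
        rw [if_pos h, if_neg h5, if_pos h4, sub_zero]
      · have h2 : S e = -T e := CYS_sign _ _ hSe hTe h
        have h3 : -S e = T e := by rw [h2, neg_neg]
        have h5 : ¬ (-S e ≠ T e) := fun h' => h' h3
        have h6 : S e ≠ T e := h
        rw [if_neg h, if_pos h6, if_neg h5, zero_sub]
    constructor
    · intro htr
      have hd : ∀ U : E → SignType, CYS_t L p f T U e =
          if U e ≠ T e then (T e : ℝ) * f e else 0 := by
        intro U
        unfold CYS_t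
        have hex : ∃ R, IsTope L R ∧ Le p R ∧ Wall L R e ∧ Tr L p R e := ⟨S, hS, hpS, he, htr⟩
        by_cases h : U e = T e
        · have h5 : ¬ (U e ≠ T e) := fun h' => h' h
          have h6 : ¬ (p e = 0 ∧ U e ≠ T e) := fun h' => h'.2 h
          rw [if_neg h6, if_neg h5]
        · have h5 : U e ≠ T e := h
          rw [if_pos (⟨hpe, h⟩ : p e = 0 ∧ U e ≠ T e), if_pos hex, if_pos h5]
      have h1 := key _ hd
      have h2 : (if S e = T e then (T e : ℝ) * f e else -((T e : ℝ) * f e)) = (S e : ℝ) * f e := by
        by_cases h : S e = T e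
        · rw [if_pos h, h]
        · have h2 : S e = -T e := CYS_sign _ _ hSe hTe h
          rw [if_neg h, h2, SignType.coe_neg]
          ring
      rw [h2] at h1
      show c0 + ∑ g, CYS_t L p f T (fl S e) g = c0 + ∑ g, CYS_t L p f T S g + (S e : ℝ) * f e
      linarith
    · intro htr
      have hd : ∀ U : E → SignType, CYS_t L p f T U e =
          if U e ≠ T e then (0 : ℝ) else 0 := by
        intro U
        unfold CYS_t
        have hex : ¬ ∃ R, IsTope L R ∧ Le p R ∧ Wall L R e ∧ Tr L p R e := by
          rintro ⟨R, h1, h2, h3, h4⟩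
          exact htr ((hE R S h1 h2 hS hpS e hpe h3 he).1 h4)
        rw [if_neg hex]
        simp
      have h1 := key _ hd
      simp only [neg_zero, ite_self] at h1
      show c0 + ∑ g, CYS_t L p f T (fl S e) g = c0 + ∑ g, CYS_t L p f T S g
      linarith

end Pool.Agent.helper66.SL
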