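import Pool.Agent.helper66.SL.SpecC

set_option autoImplicit false

namespace Pool.Agent.helper66.SL

open Pool.Agent.helper52.FC

theorem PEX_proof (hWFZ : WFZ) (hCHN : CHN) : PEX := by
  intro E _ L hR3 x y hxy
  have hL := hR3.good.om
  have hs := hR3.good.simple
  by_contra hno
  obtain ⟨S, S0, hS, hS0, hd⟩ := exists_diff hL hs x
  have hSx := tope_supp hL hs hS x
  have hSy := tope_supp hL hs hS y
  have hWS : Wall L S x := by
    have h1 : fl S x = S0 := by
      funext g
      by_cases hg : g = x
      · subst hg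
        rw [fl_same]
        have h2 := sne hSx (tope_supp hL hs hS0 g) hd.1
        rw [h2, neg_neg]
      · rw [fl_ne _ hg]
        exact hd.2 g hg
    show IsTope L (fl S x)
    rw [h1]
    exact hS0
  have hF : (fun g => -(fz S x g)) ∈ L := hL.neg _ ((hWFZ E L hL hs S hS x).1 hWS)
  have hF0 : (fun g => -(fz S x g)) x = 0 := by
    show -(fz S x x) = 0
    rw [fz_same]
    decide
  have hFn : ∀ g, g ≠ x → (fun g => -(fz S x g)) g ≠ 0 := by
    intro g hg
    show -(fz S x g) ≠ 0
    rw [fz_ne _ hg]
    have := tope_supp hL hs hS g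
    simpa using this
  have hRL := hL.comp _ hF S hS.1
  have hRx : helper52.FC.cmp (fun g => -(fz S x g)) S x = S x := cmp_pos hF0
  have hRg : ∀ g, g ≠ x → helper52.FC.cmp (fun g => -(fz S x g)) S g = -S g := by
    intro g hg
    have h1 : helper52.FC.cmp (fun g => -(fz S x g)) S g = -(fz S x g) := cmp_neg (hFn g hg)
    rw [h1, fz_ne _ hg]
  have hR : IsTope L (helper52.FC.cmp (fun g => -(fz S x g)) S) := by
    refine tope_of hRL fun g => ?_
    by_cases hg : g = x
    · rw [hg, hRx]
      exact hSx
    · rw [hRg g hg]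
      have := tope_supp hL hs hS g
      simpa using this
  have hWR : Wall L (helper52.FC.cmp (fun g => -(fz S x g)) S) x := by
    refine (hWFZ E L hL hs _ hR x).2 ?_
    have h1 : fz (helper52.FC.cmp (fun g => -(fz S x g)) S) x = fun g => -(fz S x g) := by
      funext g
      by_cases hg : g = x
      · rw [hg, fz_same, fz_same]
        decide
      · rw [fz_ne _ hg, hRg g hg, fz_ne _ hg]
    rw [h1]
    exact hF
  have h := hCHN E L hR3.good x (fun S' => S' y = S y) S _ hS hR hWS hWR hRx.symm rfl ?_
  · have h2 : helper52.FC.cmp (fun g => -(fz S x g)) S y = S y := h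
    rw [hRg y hxy.symm] at h2
    exact hSy (sneg h2.symm rfl)
  · intro S1 S2 Z hS1 hS2 hZ hZx hle1 hle2 _ _ _ _ hQ
    show S2 y = S y
    have hZy : Z y ≠ 0 := fun h0 => hno ⟨Z, hZ, hZx, h0⟩
    have h1 : Z y = S1 y := (hle1 y).resolve_left hZy
    have h2 : Z y = S2 y := (hle2 y).resolve_left hZy
    have hQ' : S1 y = S y := hQ
    rw [← h2, h1, hQ']

end Pool.Agent.helper66.SL
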